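import Pool.Agent.Q120.FA.Stm2
import Pool.Agent.Q277.FA.ID
import Pool.Agent.H295R2.T8

/-! Project FA (helper120), job EL (helper223): the lower bound in `L¹`. -/

set_option autoImplicit false

namespace Pool.Agent.Q223.FA

open MeasureTheory Filter Topology Set Pool.Agent.Q120.FA
open scoped Real

lemma ps_meas : Measurable ps := by
  unfold ps
  exact measurable_fract.sub_const _

lemma ps_bd (x : ℝ) : |ps x| ≤ 1 / 2 := by
  unfold ps
  rw [abs_le]
  constructor
  · have := Int.fract_nonneg x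
    linarith
  · have := (Int.fract_lt_one x).le
    linarith

lemma ii_of_bd {f : ℝ → ℝ} (hf : Measurable f) (B : ℝ) (hB : ∀ x, |f x| ≤ B) (a b : ℝ) :
    IntervalIntegrable f volume a b := by
  refine (intervalIntegrable_const (c := B)).mono_fun hf.aestronglyMeasurable ?_
  refine Filter.Eventually.of_forall fun x => ?_
  change |f x| ≤ |B|
  exact (hB x).trans (le_abs_self B)

lemma ps_sin_ii (d k : ℕ) (a b : ℝ) :
    IntervalIntegrable (fun t : ℝ => ps ((d : ℝ) * t) * Real.sin (2 * π * k * t)) volume a b := by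
  have hm : Measurable (fun t : ℝ => ps ((d : ℝ) * t) * Real.sin (2 * π * k * t)) :=
    (ps_meas.comp (measurable_id.const_mul (d : ℝ))).mul (by fun_prop)
  refine ii_of_bd hm (1 / 2) (fun x => ?_) a b
  rw [abs_mul]
  calc |ps ((d : ℝ) * x)| * |Real.sin (2 * π * k * x)| ≤ 1 / 2 * 1 :=
        mul_le_mul (ps_bd _) (Real.abs_sin_le_one _) (abs_nonneg _) (by norm_num)
    _ = 1 / 2 := by norm_num

/-- the integral over one period of `ψ(dt)` -/
lemma piece (d k : ℕ) (hd : 0 < d) (hk : 0 < k) (j : ℕ) :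
    ∫ t in ((j : ℝ) / d)..(((j + 1 : ℕ) : ℝ) / d), ps ((d : ℝ) * t) * Real.sin (2 * π * k * t) =
      -(Real.cos (2 * π * k * (((j + 1 : ℕ) : ℝ) / d)) + Real.cos (2 * π * k * ((j : ℝ) / d))) / (4 * π * k) +
      d / (2 * π * k) ^ 2 *
        (Real.sin (2 * π * k * (((j + 1 : ℕ) : ℝ) / d)) - Real.sin (2 * π * k * ((j : ℝ) / d))) := by
  have hd0 : (0 : ℝ) < d := by exact_mod_cast hd
  have hk0 : (0 : ℝ) < k := by exact_mod_cast hk
  have hw : 2 * π * (k : ℝ) ≠ 0 := by positivity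
  have hle : (j : ℝ) / d ≤ ((j + 1 : ℕ) : ℝ) / d := by
    push_cast
    gcongr
    linarith
  have h1 : ∫ t in ((j : ℝ) / d)..(((j + 1 : ℕ) : ℝ) / d), ps ((d : ℝ) * t) * Real.sin (2 * π * k * t) =
      ∫ t in ((j : ℝ) / d)..(((j + 1 : ℕ) : ℝ) / d), ((d : ℝ) * t - j - 1 / 2) * Real.sin (2 * π * k * t) := by
    refine intervalIntegral.integral_congr_ae ?_
    have hne : ∀ᵐ t : ℝ ∂volume, t ≠ ((j + 1 : ℕ) : ℝ) / d :=
      compl_mem_ae_iff.2 (measure_singleton _)
    filter_upwards [hne] with t ht hm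
    rw [uIoc_of_le hle, mem_Ioc] at hm
    have e1 : (j : ℝ) < d * t := by
      have := (div_lt_iff₀ hd0).1 hm.1
      linarith
    have e2 : (d : ℝ) * t < j + 1 := by
      have h3 := lt_of_le_of_ne hm.2 ht
      have := (lt_div_iff₀ hd0).1 h3
      push_cast at this
      linarith
    have e3 : ⌊(d : ℝ) * t⌋ = (j : ℤ) := by
      rw [Int.floor_eq_iff]
      push_cast
      exact ⟨e1.le, e2⟩
    have e4 : ps ((d : ℝ) * t) = (d : ℝ) * t - j - 1 / 2 := by
      unfold ps Int.fract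
      rw [e3]
      push_cast
      ring
    rw [e4]
  rw [h1]
  have h2 : ∀ t ∈ uIcc ((j : ℝ) / d) (((j + 1 : ℕ) : ℝ) / d),
      HasDerivAt (fun t : ℝ => -((d : ℝ) * t - j - 1 / 2) * Real.cos (2 * π * k * t) / (2 * π * k) +
        d * Real.sin (2 * π * k * t) / (2 * π * k) ^ 2)
        (((d : ℝ) * t - j - 1 / 2) * Real.sin (2 * π * k * t)) t := by
    intro t _
    have a1 : HasDerivAt (fun t : ℝ => 2 * π * k * t) (2 * π * k) t := by
      simpa using (hasDerivAt_id t).const_mul (2 * π * (k : ℝ))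
    have a2 := a1.cos
    have a3 := a1.sin
    have a4 : HasDerivAt (fun t : ℝ => -((d : ℝ) * t - j - 1 / 2)) (-((d : ℝ) * 1)) t :=
      ((((hasDerivAt_id t).const_mul (d : ℝ)).sub_const (j : ℝ)).sub_const (1 / 2 : ℝ)).neg
    have a5 := ((a4.mul a2).div_const (2 * π * k)).add ((a3.const_mul (d : ℝ)).div_const ((2 * π * k) ^ 2))
    refine a5.congr_deriv ?_
    generalize Real.cos (2 * π * k * t) = c
    generalize Real.sin (2 * π * k * t) = s
    field_simp
    ring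
  rw [intervalIntegral.integral_eq_sub_of_hasDerivAt h2 (Continuous.intervalIntegrable (by fun_prop) _ _)]
  have e5 : (d : ℝ) * (((j + 1 : ℕ) : ℝ) / d) = j + 1 := by
    rw [mul_div_cancel₀ _ hd0.ne']
    push_cast
    ring
  have e6 : (d : ℝ) * ((j : ℝ) / d) = j := mul_div_cancel₀ _ hd0.ne'
  rw [e5, e6]
  generalize Real.cos (2 * π * k * (((j + 1 : ℕ) : ℝ) / d)) = c1
  generalize Real.cos (2 * π * k * ((j : ℝ) / d)) = c0
  generalize Real.sin (2 * π * k * (((j + 1 : ℕ) : ℝ) / d)) = s1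
  generalize Real.sin (2 * π * k * ((j : ℝ) / d)) = s0
  field_simp
  ring

/-- the sum of the cosines -/
lemma sum_cos (d k : ℕ) (hd : 0 < d) :
    ∑ j ∈ Finset.range d, Real.cos (2 * π * k * ((j : ℝ) / d)) = if d ∣ k then (d : ℝ) else 0 := by
  set z : ℂ := Complex.exp (2 * π * Complex.I / d) with hz
  have hp : IsPrimitiveRoot z d := Complex.isPrimitiveRoot_exp d hd.ne'
  have h1 : ∀ j : ℕ, Real.cos (2 * π * k * ((j : ℝ) / d)) = ((z ^ k) ^ j).re := by
    intro j
    rw [hz, ← pow_mul, ← Complex.exp_nat_mul]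
    have : ((k * j : ℕ) : ℂ) * (2 * π * Complex.I / d) = ((2 * π * k * ((j : ℝ) / d) : ℝ) : ℂ) * Complex.I := by
      push_cast
      ring
    rw [this, Complex.exp_ofReal_mul_I_re]
  rw [Finset.sum_congr rfl fun j _ => h1 j, ← Complex.re_sum]
  by_cases hdk : d ∣ k
  · rw [if_pos hdk, (hp.pow_eq_one_iff_dvd k).2 hdk]
    simp
  · rw [if_neg hdk]
    have hne : z ^ k ≠ 1 := fun h => hdk ((hp.pow_eq_one_iff_dvd k).1 h)
    rw [geom_sum_eq hne, ← pow_mul, mul_comm k d, pow_mul, hp.pow_eq_one, one_pow, sub_self, zero_div,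
      Complex.zero_re]

/-- the Fourier coefficients of `ψ(dt)` -/
lemma coef (d k : ℕ) (hd : 0 < d) (hk : 0 < k) :
    ∫ t in (0 : ℝ)..1, ps ((d : ℝ) * t) * Real.sin (2 * π * k * t) = -(if d ∣ k then (d : ℝ) else 0) / (2 * π * k) := by
  have hd0 : (d : ℝ) ≠ 0 := by exact_mod_cast hd.ne'
  have hk0 : (0 : ℝ) < k := by exact_mod_cast hk
  have h1 := intervalIntegral.sum_integral_adjacent_intervals (μ := volume)
    (f := fun t : ℝ => ps ((d : ℝ) * t) * Real.sin (2 * π * k * t)) (a := fun j : ℕ => (j : ℝ) / d) (n := d)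
    (fun j _ => ps_sin_ii d k _ _)
  simp only [Nat.cast_zero, zero_div, div_self hd0] at h1
  rw [← h1, Finset.sum_congr rfl fun j _ => piece d k hd hk j, Finset.sum_add_distrib, ← Finset.mul_sum,
    Finset.sum_range_sub (fun j : ℕ => Real.sin (2 * π * k * ((j : ℝ) / d))), ← Finset.sum_div,
    Finset.sum_neg_distrib, Finset.sum_add_distrib]
  have h2 : ∑ j ∈ Finset.range d, Real.cos (2 * π * k * (((j + 1 : ℕ) : ℝ) / d)) =
      ∑ j ∈ Finset.range d, Real.cos (2 * π * k * ((j : ℝ) / d)) := by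
    have h3 := Finset.sum_range_succ (fun j : ℕ => Real.cos (2 * π * k * ((j : ℝ) / d))) d
    have h4 := Finset.sum_range_succ' (fun j : ℕ => Real.cos (2 * π * k * ((j : ℝ) / d))) d
    rw [h3] at h4
    have h5 : Real.cos (2 * π * k * ((d : ℝ) / d)) = 1 := by
      rw [div_self hd0, mul_one, mul_comm (2 * π), Real.cos_nat_mul_two_pi]
    have h6 : Real.cos (2 * π * k * (((0 : ℕ) : ℝ) / d)) = 1 := by simp
    rw [h5, h6] at h4
    linarith
  have h7 : Real.sin (2 * π * k * ((d : ℝ) / d)) = 0 := by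
    rw [div_self hd0, mul_one, show 2 * π * (k : ℝ) = ((2 * k : ℕ) : ℝ) * π by push_cast; ring, Real.sin_nat_mul_pi]
  have h8 : Real.sin (2 * π * k * (((0 : ℕ) : ℝ) / d)) = 0 := by simp
  rw [h2, h7, h8, sum_cos d k hd, sub_zero, mul_zero, add_zero]
  have hpi := Real.pi_pos
  field_simp
  ring

lemma Mt_zero : Mt 0 = 0 := by
  unfold Mt
  simp

lemma E_bd (N : ℕ) : ∃ B : ℝ, 0 ≤ B ∧ ∀ x, |-(∑ d ∈ Finset.Icc 1 N, Mt (N / d) * ps ((d : ℝ) * x)) - 1 / 2| ≤ B := by
  refine ⟨(∑ d ∈ Finset.Icc 1 N, |Mt (N / d)|) + 1 / 2, by positivity, fun x => ?_⟩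
  have h1 : |∑ d ∈ Finset.Icc 1 N, Mt (N / d) * ps ((d : ℝ) * x)| ≤ ∑ d ∈ Finset.Icc 1 N, |Mt (N / d)| := by
    refine (Finset.abs_sum_le_sum_abs _ _).trans (Finset.sum_le_sum fun d _ => ?_)
    rw [abs_mul]
    have := ps_bd ((d : ℝ) * x)
    have h0 := abs_nonneg (Mt (N / d))
    nlinarith
  have h2 := abs_le.1 h1
  rw [abs_le]
  constructor <;> linarith [h2.1, h2.2]

/-- the Fourier coefficients of `E_N` -/
lemma coefE (N k : ℕ) (hN : 1 ≤ N) (hk : 0 < k) :
    ∑ d ∈ k.divisors, (d : ℝ) * Mt (N / d) = 2 * π * k * ∫ t in (0 : ℝ)..1, E N t * Real.sin (2 * π * k * t) := by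
  have hk0 : (0 : ℝ) < k := by exact_mod_cast hk
  have hpi := Real.pi_pos
  have h1 : ∫ t in (0 : ℝ)..1, E N t * Real.sin (2 * π * k * t) =
      ∫ t in (0 : ℝ)..1, ((∑ d ∈ Finset.Icc 1 N, -Mt (N / d) * (ps ((d : ℝ) * t) * Real.sin (2 * π * k * t))) -
        1 / 2 * Real.sin (2 * π * k * t)) := by
    refine intervalIntegral.integral_congr fun t ht => ?_
    rw [uIcc_of_le zero_le_one, mem_Icc] at ht
    have := Pool.Agent.Q277.FA.E_eq N hN ht.1 ht.2
    rw [this, sub_mul, neg_mul, Finset.sum_mul, ← Finset.sum_neg_distrib]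
    congr 1
    refine Finset.sum_congr rfl fun d _ => ?_
    ring
  have h2 : ∫ t in (0 : ℝ)..1, (1 / 2 : ℝ) * Real.sin (2 * π * k * t) = 0 := by
    have e1 : (2 * π * (k : ℝ)) ≠ 0 := by positivity
    rw [intervalIntegral.integral_const_mul, intervalIntegral.integral_comp_mul_left (fun x => Real.sin x) e1,
      integral_sin, mul_zero, mul_one, Real.cos_zero, mul_comm (2 * π), Real.cos_nat_mul_two_pi, sub_self]
    simp
  rw [h1, intervalIntegral.integral_sub, h2, sub_zero, intervalIntegral.integral_finsetSum]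
  · have h3 : ∀ d ∈ Finset.Icc 1 N, ∫ t in (0 : ℝ)..1, -Mt (N / d) * (ps ((d : ℝ) * t) * Real.sin (2 * π * k * t)) =
        (if d ∣ k then (d : ℝ) * Mt (N / d) else 0) / (2 * π * k) := by
      intro d hd
      rw [Finset.mem_Icc] at hd
      rw [intervalIntegral.integral_const_mul, coef d k hd.1 hk]
      split_ifs <;> ring
    rw [Finset.sum_congr rfl h3, ← Finset.sum_div, mul_div_cancel₀ _ (by positivity), ← Finset.sum_filter]
    symm
    refine Finset.sum_subset (fun d hd => ?_) fun d hd hn => ?_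
    · rw [Finset.mem_filter] at hd
      exact Nat.mem_divisors.2 ⟨hd.2, hk.ne'⟩
    · have h4 := Nat.mem_divisors.1 hd
      have h5 : 1 ≤ d := Nat.pos_of_mem_divisors hd
      have h6 : N < d := by
        by_contra hcon
        exact hn (Finset.mem_filter.2 ⟨Finset.mem_Icc.2 ⟨h5, by omega⟩, h4.1⟩)
      rw [Nat.div_eq_of_lt h6, Mt_zero, mul_zero]
  · intro d _
    exact (ps_sin_ii d k 0 1).const_mul _
  · have := IntervalIntegrable.sum (μ := volume) (a := 0) (b := 1) (Finset.Icc 1 N)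
      (f := fun (d : ℕ) (t : ℝ) => -Mt (N / d) * (ps ((d : ℝ) * t) * Real.sin (2 * π * k * t)))
      fun d _ => (ps_sin_ii d k 0 1).const_mul _
    refine this.congr fun t _ => ?_
    simp
  · exact Continuous.intervalIntegrable (by fun_prop) _ _

lemma bound1 (N k : ℕ) (hN : 1 ≤ N) (hk : 0 < k) :
    |∑ d ∈ k.divisors, (d : ℝ) * Mt (N / d)| ≤ 2 * π * k * ∫ t in (0 : ℝ)..1, |E N t| := by
  have hk0 : (0 : ℝ) < k := by exact_mod_cast hk
  have hpi := Real.pi_pos
  rw [coefE N k hN hk, abs_mul, abs_of_pos (by positivity : 0 < 2 * π * (k : ℝ))]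
  refine mul_le_mul_of_nonneg_left ?_ (by positivity)
  set f : ℝ → ℝ := fun x => -(∑ d ∈ Finset.Icc 1 N, Mt (N / d) * ps ((d : ℝ) * x)) - 1 / 2 with hf
  have hfm : Measurable f := by
    rw [hf]
    refine Measurable.sub_const (Measurable.neg (Finset.measurable_fun_sum _ fun d _ => ?_)) _
    exact (ps_meas.comp (measurable_id.const_mul (d : ℝ))).const_mul _
  obtain ⟨B, hB0, hB⟩ := E_bd N
  have hEf : ∀ t ∈ uIcc (0 : ℝ) 1, E N t = f t := by
    intro t ht
    rw [uIcc_of_le zero_le_one, mem_Icc] at ht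
    exact Pool.Agent.Q277.FA.E_eq N hN ht.1 ht.2
  have e1 : ∫ t in (0 : ℝ)..1, E N t * Real.sin (2 * π * k * t) = ∫ t in (0 : ℝ)..1, f t * Real.sin (2 * π * k * t) :=
    intervalIntegral.integral_congr fun t ht => by rw [hEf t ht]
  have e2 : ∫ t in (0 : ℝ)..1, |E N t| = ∫ t in (0 : ℝ)..1, |f t| :=
    intervalIntegral.integral_congr fun t ht => by rw [hEf t ht]
  rw [e1, e2]
  refine (intervalIntegral.abs_integral_le_integral_abs zero_le_one).trans ?_
  refine intervalIntegral.integral_mono_on zero_le_one ?_ ?_ fun t _ => ?_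
  · refine ii_of_bd (hfm.mul (by fun_prop)).abs B (fun x => ?_) 0 1
    rw [abs_abs, Pi.mul_apply, abs_mul]
    have h1 := hB x
    have h2 := Real.abs_sin_le_one (2 * π * k * x)
    have h3 := abs_nonneg (f x)
    calc |f x| * |Real.sin (2 * π * k * x)| ≤ |f x| * 1 := by gcongr
      _ ≤ B := by rw [mul_one]; exact h1
  · refine ii_of_bd hfm.abs B (fun x => ?_) 0 1
    rw [abs_abs]
    exact hB x
  · rw [abs_mul]
    exact mul_le_of_le_one_right (abs_nonneg _) (Real.abs_sin_le_one _)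

lemma bound2 (N k : ℕ) (hN : 1 ≤ N) (hk : 0 < k) :
    |Mt (N / k)| ≤ 2 * π * k * ∫ t in (0 : ℝ)..1, |E N t| := by
  have hk0 : (0 : ℝ) < k := by exact_mod_cast hk
  have hpi := Real.pi_pos
  set e : ℝ := ∫ t in (0 : ℝ)..1, |E N t| with he
  have he0 : 0 ≤ e := intervalIntegral.integral_nonneg zero_le_one fun t _ => abs_nonneg _
  have h1 := (ArithmeticFunction.sum_eq_iff_sum_mul_moebius_eq
    (f := fun d : ℕ => (d : ℝ) * Mt (N / d)) (g := fun k : ℕ => ∑ d ∈ k.divisors, (d : ℝ) * Mt (N / d))).1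
    (fun n _ => rfl) k hk
  rw [Nat.sum_divisorsAntidiagonal' (f := fun x y : ℕ => ((ArithmeticFunction.moebius x : ℤ) : ℝ) *
    ∑ d ∈ y.divisors, (d : ℝ) * Mt (N / d))] at h1
  have h2 : |(k : ℝ) * Mt (N / k)| ≤ ∑ i ∈ k.divisors, 2 * π * k * e := by
    rw [← h1]
    refine (Finset.abs_sum_le_sum_abs _ _).trans (Finset.sum_le_sum fun i hi => ?_)
    have hi0 : 0 < i := Nat.pos_of_mem_divisors hi
    have hik : i ≤ k := Nat.divisor_le hi
    have hik' : (i : ℝ) ≤ k := by exact_mod_cast hik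
    have h3 : |((ArithmeticFunction.moebius (k / i) : ℤ) : ℝ)| ≤ 1 := by
      have := ArithmeticFunction.abs_moebius_le_one (n := k / i)
      exact_mod_cast this
    rw [abs_mul]
    calc |((ArithmeticFunction.moebius (k / i) : ℤ) : ℝ)| * |∑ d ∈ i.divisors, (d : ℝ) * Mt (N / d)| ≤
          1 * (2 * π * i * e) := mul_le_mul h3 (bound1 N i hN hi0) (abs_nonneg _) zero_le_one
      _ ≤ 2 * π * k * e := by
          rw [one_mul]
          gcongr
  rw [Finset.sum_const, nsmul_eq_mul, abs_mul, abs_of_pos hk0] at h2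
  have h4 : ((k.divisors.card : ℕ) : ℝ) ≤ k := by exact_mod_cast Nat.card_divisors_le_self k
  have h5 : (k : ℝ) * |Mt (N / k)| ≤ k * (2 * π * k * e) :=
    h2.trans (mul_le_mul_of_nonneg_right h4 (by positivity))
  exact le_of_mul_le_mul_left h5 hk0

theorem t_EL : J_EL := by
  intro ε hε
  set δ : ℝ := min (ε / 4) 1 with hδ
  have hδ0 : 0 < δ := lt_min (by linarith) one_pos
  have hδ1 : δ ≤ 1 := min_le_right _ _
  have hδε : δ ≤ ε / 4 := min_le_left _ _
  have h1 := Pool.Agent.H295R2.mertens_local_lower hδ0 hδ1 (show 0 < ε / 2 by linarith)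
  have h2 := Pool.Agent.H295R2.rpow_eventually_ge (a := ε / 4) (by linarith) (2 * π)
  filter_upwards [h1, h2, eventually_ge_atTop 1] with N h1 h2 hN
  obtain ⟨h, hh1, hh2, hh3⟩ := h1
  have hN1 : (1 : ℝ) ≤ N := by exact_mod_cast hN
  have hN0 : (0 : ℝ) < N := by linarith
  have h3 : Pool.Agent.H295R2.Mx ((N : ℝ) / h) = Mt (N / h) := by
    rw [Pool.Agent.H295R2.Mx_div]
    rfl
  have h4 : (N : ℝ) ^ (Th - ε / 2) ≤ |Mt (N / h)| := by
    rw [← h3]
    exact hh3
  have h5 := bound2 N h hN hh1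
  set e : ℝ := ∫ t in (0 : ℝ)..1, |E N t| with he
  have he0 : 0 ≤ e := intervalIntegral.integral_nonneg zero_le_one fun t _ => abs_nonneg _
  have h6 : (N : ℝ) ^ (Th - ε / 2) ≤ (N : ℝ) ^ (ε / 4) * (N : ℝ) ^ (ε / 4) * e := by
    refine h4.trans (h5.trans ?_)
    have h7 : (h : ℝ) ≤ (N : ℝ) ^ (ε / 4) := hh2.trans (Real.rpow_le_rpow_of_exponent_le hN1 hδε)
    gcongr
  have h8 : (N : ℝ) ^ (Th - ε / 2) = (N : ℝ) ^ (ε / 4) * (N : ℝ) ^ (ε / 4) * (N : ℝ) ^ (Th - ε) := by
    rw [← Real.rpow_add hN0, ← Real.rpow_add hN0]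
    congr 1
    ring
  rw [h8] at h6
  exact le_of_mul_le_mul_left h6 (by positivity)

end Pool.Agent.Q223.FA
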