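import Pool.Agent.Q120.FA.Stm3
import Pool.Agent.Q124.FA.ZR

/-! Project FA (helper120), job SZ (helper223): the uniform profile at `0`. -/

set_option autoImplicit false

namespace Pool.Agent.Q223.FA

open MeasureTheory Filter Topology Set Pool.Agent.Q120.FA
open Pool.Agent.Q124.FA (count_a cnt_small totient_lim)

lemma cnt_zero (N : ℕ) : cnt N 0 = 0 := by
  classical
  unfold cnt
  rw [Finset.card_eq_zero, Finset.filter_eq_empty_iff]
  rintro ⟨a, n⟩ hq ⟨-, -, h⟩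
  rw [Finset.mem_product, Finset.mem_Icc, Finset.mem_Icc] at hq
  have h1 : (0 : ℝ) < a := by exact_mod_cast (show 0 < a from hq.1.1)
  have h2 : (0 : ℝ) < n := by exact_mod_cast (show 0 < n from hq.2.1)
  have h3 : (0 : ℝ) < (a : ℝ) / (n : ℝ) := div_pos h1 h2
  exact absurd h (not_le.2 h3)

/-- the count near `0`, uniformly -/
lemma cnt_uniform (x X : ℝ) (hx : 0 < x) (hxX : x ≤ X) (N : ℕ) (hN : X ≤ N) :
    |(cnt N (x / N) : ℝ) - (∑ n ∈ Finset.Icc 1 ⌊x⌋₊, (n.totient : ℝ) / (n : ℝ) * (1 - (n : ℝ) / x)) * N| ≤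
      (X + 1) ^ 2 := by
  rw [cnt_small x hx N (hxX.trans hN)]
  push_cast
  rw [Finset.sum_mul, ← Finset.sum_sub_distrib]
  refine (Finset.abs_sum_le_sum_abs _ _).trans ?_
  have h1 : ∀ a ∈ Finset.Icc 1 ⌊x⌋₊, |((((Finset.Icc 1 N).filter fun n : ℕ =>
      a ≤ n ∧ a.Coprime n ∧ (a : ℝ) / (n : ℝ) ≤ x / N).card : ℕ) : ℝ) -
      (a.totient : ℝ) / (a : ℝ) * (1 - (a : ℝ) / x) * N| ≤ X + 1 := by
    intro a ha
    rw [Finset.mem_Icc] at ha
    have hax : (a : ℝ) ≤ x := (Nat.le_floor_iff hx.le).1 ha.2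
    have := count_a x a N ha.1 hax (hxX.trans hN)
    linarith
  refine (Finset.sum_le_sum h1).trans ?_
  rw [Finset.sum_const, Nat.card_Icc, Nat.add_sub_cancel, nsmul_eq_mul]
  have h2 : (⌊x⌋₊ : ℝ) ≤ x := Nat.floor_le hx.le
  have h3 : (⌊x⌋₊ : ℝ) ≤ X + 1 := by linarith
  have h4 : (0 : ℝ) ≤ X + 1 := by linarith
  nlinarith

theorem t_SZ : J_SZ := by
  intro X ε hX hε
  have h1 : ∀ᶠ N : ℕ in atTop,
      |(∑ n ∈ Finset.Icc 1 N, (n.totient : ℝ)) / (N : ℝ) ^ 2 - 3 / Real.pi ^ 2| < ε / (2 * X) := by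
    have := Metric.tendsto_nhds.1 totient_lim (ε / (2 * X)) (by positivity)
    simpa [Real.dist_eq] using this
  have h2 : ∀ᶠ N : ℕ in atTop, (X + 1) ^ 2 * (2 / ε) ≤ (N : ℝ) :=
    tendsto_natCast_atTop_atTop.eventually_ge_atTop _
  filter_upwards [h1, h2, eventually_ge_atTop ⌈X⌉₊, eventually_ge_atTop 1] with N h1 h2 h3 h4 x hx hx0 _
  have hN' : (0 : ℝ) < N := by exact_mod_cast h4
  have hXN : X ≤ N := Nat.ceil_le.1 h3
  have e0 : ((0 : ℕ) : ℝ) / ((1 : ℕ) : ℝ) + x / (((1 : ℕ) : ℝ) * N) = x / N := by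
    push_cast
    ring
  rw [e0] at hx0
  rw [e0]
  have e1 : Fo x / ((1 : ℕ) : ℝ) = Fo x := by push_cast; ring
  rw [e1]
  have hxx : 0 ≤ x := by
    by_contra hcon
    push Not at hcon
    exact absurd hx0 (not_le.2 (div_neg_of_neg_of_pos hcon hN'))
  rcases hxx.eq_or_lt with hx1 | hx1
  · rw [← hx1, zero_div]
    have e2 : E N 0 = 0 := by
      unfold E
      rw [cnt_zero]
      simp
    have e3 : Fo 0 = 0 := by
      unfold Fo
      simp
    rw [e2, e3, zero_div, sub_zero, abs_zero]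
    exact hε.le
  · have e2 : Fo x = F x := by
      unfold Fo
      rw [if_pos hx1]
    rw [e2]
    have hxX : x ≤ X := (le_abs_self x).trans hx
    have h5 := cnt_uniform x X hx1 hxX N hXN
    set A : ℝ := ∑ n ∈ Finset.Icc 1 ⌊x⌋₊, (n.totient : ℝ) / (n : ℝ) * (1 - (n : ℝ) / x) with hA
    set P : ℝ := ∑ n ∈ Finset.Icc 1 N, (n.totient : ℝ) with hP
    have e3 : E N (x / N) / N - F x = ((cnt N (x / N) : ℝ) - A * N) / N - (P / (N : ℝ) ^ 2 - 3 / Real.pi ^ 2) * x := by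
      unfold E F
      rw [← hA, ← hP]
      field_simp
      ring
    rw [e3]
    have h6 : |((cnt N (x / N) : ℝ) - A * N) / N| ≤ ε / 2 := by
      rw [abs_div, abs_of_pos hN', div_le_iff₀ hN']
      refine h5.trans ?_
      have h7 : ε / 2 * ((X + 1) ^ 2 * (2 / ε)) ≤ ε / 2 * N := mul_le_mul_of_nonneg_left h2 (by positivity)
      have h8 : ε / 2 * ((X + 1) ^ 2 * (2 / ε)) = (X + 1) ^ 2 := by field_simp
      rw [h8] at h7
      exact h7
    have h9 : |(P / (N : ℝ) ^ 2 - 3 / Real.pi ^ 2) * x| ≤ ε / 2 := by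
      rw [abs_mul, abs_of_pos hx1]
      calc |P / (N : ℝ) ^ 2 - 3 / Real.pi ^ 2| * x ≤ ε / (2 * X) * X :=
            mul_le_mul h1.le hxX hx1.le (by positivity)
        _ = ε / 2 := by field_simp
    calc |((cnt N (x / N) : ℝ) - A * N) / N - (P / (N : ℝ) ^ 2 - 3 / Real.pi ^ 2) * x| ≤
          |((cnt N (x / N) : ℝ) - A * N) / N| + |(P / (N : ℝ) ^ 2 - 3 / Real.pi ^ 2) * x| := abs_sub _ _
      _ ≤ ε / 2 + ε / 2 := add_le_add h6 h9
      _ = ε := by ring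

end Pool.Agent.Q223.FA
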